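import Pool.Agent.L7h12.PO.Phs
import Pool.Agent.W722.PO.VS
import Pool.Agent.W722.PO.MAIN2

set_option autoImplicit false

namespace Pool.Agent.L7h12.PO

open Pool.Agent.W722.PO StpX PhsX

namespace AllX

/-- the sum of the edge sets of a multiset of cycles -/
def csM (M : Multiset (List ℕ)) : Multiset (Sym2 ℕ) := (M.map cm).sum

theorem csM_coe (L : List (List ℕ)) : csM (L : Multiset (List ℕ)) = csum L := by
  simp [csM, csum]

theorem csM_add (A B : Multiset (List ℕ)) : csM (A + B) = csM A + csM B := by
  simp [csM]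

theorem par_zero : par (0 : Multiset (Sym2 ℕ)) = 0 := by
  funext e
  simp [par]

theorem par_csM_sum (F : ℕ → List (List ℕ)) (k : ℕ) :
    par (csM (∑ j ∈ Finset.range k, (F j : Multiset (List ℕ)))) =
      ∑ j ∈ Finset.range k, par (csum (F j)) := by
  induction k with
  | zero => simp [csM, par_zero]
  | succ k ih => rw [Finset.sum_range_succ, Finset.sum_range_succ, csM_add, par_add', ih, csM_coe]

theorem psum_append (A B : List (List ℕ)) : psum (A ++ B) = psum A + psum B := by
  simp [psum]

/-- splitting every cycle into two paths -/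
theorem split (n : ℕ) (Cs : List (List ℕ)) (hC : ∀ C ∈ Cs, IsC C) (hn : ∀ C ∈ Cs, ∀ v ∈ C, v < n) :
    ∃ Ps : List (List ℕ), (∀ p ∈ Ps, IsP p) ∧ (∀ p ∈ Ps, ∀ v ∈ p, v < n) ∧
      Ps.length = 2 * Cs.length ∧ par (csum Cs) = par (psum Ps) := by
  induction Cs with
  | nil => exact ⟨[], by simp, by simp, rfl, by simp [csum, psum]⟩
  | cons C Cs ih =>
    obtain ⟨Ps, h1, h2, h3, h4⟩ := ih (fun D h => hC D (List.mem_cons_of_mem _ h))
      (fun D h => hn D (List.mem_cons_of_mem _ h))
    obtain ⟨hl, hd⟩ := hC C (by simp)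
    have hn' := hn C (by simp)
    obtain ⟨a, b, t, rfl⟩ : ∃ a b t, C = a :: b :: t := by
      match C, hl with
      | [], h => simp at h
      | [_], h => simp at h
      | a :: b :: t, _ => exact ⟨a, b, t, rfl⟩
    have hab : a ≠ b := fun h => (List.nodup_cons.1 hd).1 (by rw [h]; simp)
    have hp : (b :: (t ++ [a])).Perm (a :: b :: t) := by
      rw [List.perm_iff_count]
      intro x
      simp only [List.count_append, List.count_cons, List.count_nil]
      ring
    refine ⟨[a, b] :: (b :: (t ++ [a])) :: Ps, ?_, ?_, ?_, ?_⟩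
    · intro p hpm
      rcases List.mem_cons.1 hpm with rfl | hpm
      · exact ⟨by simp, by simp [hab]⟩
      rcases List.mem_cons.1 hpm with rfl | hpm
      · exact ⟨by simp, hp.nodup_iff.2 hd⟩
      · exact h1 p hpm
    · intro p hpm v hv
      rcases List.mem_cons.1 hpm with rfl | hpm
      · simp only [List.mem_cons, List.not_mem_nil, or_false] at hv
        rcases hv with rfl | rfl
        · exact hn' _ (by simp)
        · exact hn' _ (by simp)
      rcases List.mem_cons.1 hpm with rfl | hpm
      · exact hn' v (hp.mem_iff.1 hv)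
      · exact h2 p hpm v hv
    · simp only [List.length_cons]
      omega
    · rw [csum_cons, psum_cons, psum_cons, cm_cons2, par_add', par_add', par_add', par_add', h4]
      ring

/-- gluing -/
theorem glue (n : ℕ) (F : ℕ → List (List ℕ)) (k : ℕ)
    (h : ∀ j < k, ∃ Ps : List (List ℕ), (∀ p ∈ Ps, IsP p) ∧ (∀ p ∈ Ps, ∀ v ∈ p, v < n) ∧
      Ps.length = (F j).length + 1 ∧ par (csum (F j)) = par (psum Ps)) :
    ∃ Ps : List (List ℕ), (∀ p ∈ Ps, IsP p) ∧ (∀ p ∈ Ps, ∀ v ∈ p, v < n) ∧
      Ps.length = Multiset.card (∑ j ∈ Finset.range k, (F j : Multiset (List ℕ))) + k ∧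
      ∑ j ∈ Finset.range k, par (csum (F j)) = par (psum Ps) := by
  induction k with
  | zero => exact ⟨[], by simp, by simp, rfl, by simp [psum, par_zero]⟩
  | succ k ih =>
    obtain ⟨Ps, h1, h2, h3, h4⟩ := ih (fun j hj => h j (by omega))
    obtain ⟨Qs, g1, g2, g3, g4⟩ := h k (by omega)
    refine ⟨Ps ++ Qs, ?_, ?_, ?_, ?_⟩
    · intro p hp
      rcases List.mem_append.1 hp with hp | hp
      · exact h1 p hp
      · exact g1 p hp
    · intro p hp
      rcases List.mem_append.1 hp with hp | hp
      · exact h2 p hp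
      · exact g2 p hp
    · rw [List.length_append, Finset.sum_range_succ, Multiset.card_add, h3, g3]
      simp only [Multiset.coe_card]
      omega
    · rw [Finset.sum_range_succ, psum_append, par_add', h4, g4]

end AllX

open AllX

theorem s_ALL : S_PHS → S_SRT → S_CLS → S_ALL := by
  classical
  intro hP hS hCl n Cs hC hn hnd hok hlen
  rcases Nat.lt_or_ge 12 Cs.length with hr | hr
  · obtain ⟨Es, hperm, hE⟩ := hS Cs hC hnd hok
    have hEl : Es.length = Cs.length := hperm.length_eq
    have hCE : csum Es = csum Cs := by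
      unfold csum
      exact (hperm.map cm).sum_eq
    obtain ⟨F, hF1, hF2⟩ := hCl 12 (by norm_num) Es
    have hle : ∀ j < 12, (F j : Multiset (List ℕ)) ≤ (Es : Multiset (List ℕ)) := by
      intro j hj
      rw [← hF2]
      exact Finset.single_le_sum (f := fun j => (F j : Multiset (List ℕ)))
        (fun i _ => Multiset.zero_le _) (Finset.mem_range.2 hj)
    have hmem : ∀ j < 12, ∀ C ∈ F j, C ∈ Cs := by
      intro j hj C hCF
      have h1 : C ∈ (F j : Multiset (List ℕ)) := Multiset.mem_coe.2 hCF
      have h2 := Multiset.mem_of_le (hle j hj) h1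
      exact hperm.mem_iff.1 (Multiset.mem_coe.1 h2)
    have key : ∀ j < 12, ∃ Ps : List (List ℕ), (∀ p ∈ Ps, IsP p) ∧ (∀ p ∈ Ps, ∀ v ∈ p, v < n) ∧
        Ps.length = (F j).length + 1 ∧ par (csum (F j)) = par (psum Ps) := by
      intro j hj
      have hidx : ∀ i (h : i < (F j).length), ∃ h' : 12 * i + j < Es.length,
          (F j)[i] = Es[12 * i + j] := by
        intro i h
        have h1 := hF1 j hj i
        rw [List.getElem?_eq_getElem h] at h1
        have h2 := h1.symm
        rw [List.getElem?_eq_some_iff] at h2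
        obtain ⟨h3, h4⟩ := h2
        exact ⟨h3, h4.symm⟩
      have hl : (F j).length = 0 ∨ 12 * ((F j).length - 1) + j < Es.length := by
        rcases Nat.eq_zero_or_pos (F j).length with h | h
        · exact Or.inl h
        · exact Or.inr (hidx ((F j).length - 1) (by omega)).1
      have hnd' : (csum (F j)).Nodup := by
        refine Multiset.nodup_of_le ?_ hnd
        rw [← hCE, ← csM_coe, ← csM_coe]
        obtain ⟨K, hK⟩ := Multiset.le_iff_exists_add.1 (hle j hj)
        rw [hK, csM_add]
        exact Multiset.le_add_right _ _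
      obtain ⟨Ps, h1, h2, h3, h4⟩ := hP n (F j) [0] ⟨by simp, by simp⟩
        (by
          intro v hv
          rw [List.mem_singleton] at hv
          omega)
        (fun E hE' => hC E (hmem j hj E hE'))
        (fun E hE' => hn E (hmem j hj E hE')) hnd'
        (by
          intro i hi
          obtain ⟨h5, h6⟩ := hidx i hi
          have h7 := hE (12 * i + j) h5
          rw [← h6] at h7
          simp only [List.length_cons, List.length_nil]
          omega)
        (by
          simp only [List.length_cons, List.length_nil]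
          omega)
        (by
          intro E hE' x hx hxE
          have hEm : E ∈ F j := List.mem_of_mem_head? hE'
          have hx0 : x = 0 := by
            simp at hx
            exact hx.symm
          subst hx0
          obtain ⟨h5, h6⟩ := succ_mem E (hC E (hmem j hj E hEm)) 0 hxE
          exact ⟨_, by simpa using h6, h5⟩)
      refine ⟨Ps, h1, h2, h3, ?_⟩
      rw [← h4]
      have h5 : pm [0] = 0 := rfl
      rw [h5, par_zero, add_zero]
    obtain ⟨Ps, h1, h2, h3, h4⟩ := glue n F 12 key
    refine ⟨Ps, h1, h2, ?_, ?_⟩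
    · rw [h3, hF2, Multiset.coe_card, hEl]
    · rw [← h4, ← par_csM_sum, hF2, csM_coe, hCE]
  · obtain ⟨Ps, h1, h2, h3, h4⟩ := split n Cs hC hn
    exact ⟨Ps, h1, h2, by omega, h4⟩

theorem s_MAIN : LOV → VS → S_PRS → S_ALL → S_MAIN := by
  intro hL hV hPr hA E n hNL hs
  obtain ⟨Ps, Cs, ⟨hP, hC, hE⟩, hlen, hvP, hvC⟩ := hV E hNL (hL E hNL)
  have hcard : (supp E).card ≤ n := by
    have h1 : supp E ⊆ Finset.range n := by
      intro v hv
      exact Finset.mem_range.2 (hs v hv)
    simpa using Finset.card_le_card h1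
  have hnd : (csum Cs).Nodup := by
    refine Multiset.nodup_of_le ?_ E.nodup
    rw [← hE]
    exact Multiset.le_add_left _ _
  obtain ⟨Ps1, Cs', hP1, hC', hle, hlen1, hpar1, hv1, hpw⟩ := hPr Cs hC
  have hnd' : (csum Cs').Nodup := Multiset.nodup_of_le hle hnd
  obtain ⟨Ps2, hP2, hv2, hlen2, hpar2⟩ := hA n Cs' (fun C hC0 => hC C (hC' C hC0))
    (fun C hC0 v hv => hs v (hvC C (hC' C hC0) v hv)) hnd' hpw (by omega)
  refine ⟨Ps ++ (Ps1 ++ Ps2), ?_, ?_, ?_, ?_⟩
  · intro p hp
    rcases List.mem_append.1 hp with h | h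
    · exact hP p h
    · rcases List.mem_append.1 h with h | h
      · exact hP1 p h
      · exact hP2 p h
  · rw [List.length_append, List.length_append]
    omega
  · intro p hp v hv
    rcases List.mem_append.1 hp with h | h
    · exact hs v (hvP p h v hv)
    · rcases List.mem_append.1 h with h | h
      · obtain ⟨c, hc, hvc⟩ := hv1 p h v hv
        exact hs v (hvC c hc v hvc)
      · exact hv2 p h v hv
  · rw [← hE, par_add', psum_append, psum_append, par_add', par_add', hpar1, hpar2]

end Pool.Agent.L7h12.PO
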