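import Pool.Agent.L7h12.PO.All
import Pool.Agent.L7h23.PO.Cls
import Pool.Agent.L7h23.PO.Prs
import Pool.Agent.L7h23.PO.Srt
import Pool.Agent.L7h23.PO.T4
import Pool.Agent.L7h37.PO.Cnt
import Pool.Agent.W722.PO.PAR
import Pool.Agent.W722.PO.FLOW
import Pool.Agent.W722.PO.CHN
import Pool.Agent.W722.PO.S1
import Pool.Agent.W722.PO.S2
import Pool.Agent.W722.PO.BASE
import Pool.Agent.W722.PO.MEAS
import Pool.Agent.W722.PO.CONV
import Pool.Agent.W722.PO.GE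

set_option autoImplicit false

namespace Pool.Agent.L7h12.PO

open Pool.Agent.W722.PO

theorem lov : LOV := LOV_holds (S1_holds PAR_holds (CHN_holds FLOW_holds))
  (S2_holds PAR_holds (CHN_holds FLOW_holds)) BASE_holds MEAS1_holds MEAS2_holds

theorem main : S_MAIN :=
  s_MAIN lov VS_holds (Pool.Agent.L7h23.PO.s_PRS Pool.Agent.L7h23.PO.s_T4)
    (s_ALL (s_PHS s_STP) (Pool.Agent.L7h23.PO.s_SRT Pool.Agent.L7h37.PO.s_CNT)
      Pool.Agent.L7h23.PO.s_CLS)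

theorem final (n : ℕ) (G : SimpleGraph (Fin n)) :
    ∃ (k : ℕ) (u v : Fin k → Fin n) (P : ∀ i : Fin k, (⊤ : SimpleGraph (Fin n)).Walk (u i) (v i)),
      k ≤ n / 2 + 12 ∧ (∀ i : Fin k, (P i).IsPath) ∧
      ∀ a b : Fin n, a ≠ b →
        (G.Adj a b ↔ Odd ((Finset.univ.filter (fun i : Fin k => s(a, b) ∈ (P i).edges)).card)) := by
  obtain ⟨E, hE1, hE2, hE3⟩ := GE_holds n G
  obtain ⟨Ps, hP1, hP2, hP3, hP4⟩ := main E n hE1 hE2
  obtain ⟨u, v, P, hp, hadj⟩ := CONV_holds n G Ps hP1 hP3 (by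
    intro a b hab
    rw [← hP4]
    exact hE3 a b hab)
  exact ⟨Ps.length, u, v, P, hP2, hp, hadj⟩

end Pool.Agent.L7h12.PO
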