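import Pool.Agent.L7h12.PO.Stp

set_option autoImplicit false

namespace Pool.Agent.L7h12.PO

open Pool.Agent.W722.PO StpX

namespace PhsX

theorem csum_cons (C : List ℕ) (Cs : List (List ℕ)) : csum (C :: Cs) = cm C + csum Cs := by
  simp [csum]

theorem psum_cons (C : List ℕ) (Cs : List (List ℕ)) : psum (C :: Cs) = pm C + psum Cs := by
  simp [psum]

theorem succ_mem (D : List ℕ) (hD : IsC D) (q : ℕ) (hq : q ∈ D) :
    s(q, D.formPerm q) ∈ cm D ∧ D.formPerm q ≠ q := by
  obtain ⟨l1, l2, rfl⟩ := List.append_of_mem hq
  have hp2 : (l1 ++ q :: l2).Perm (q :: (l2 ++ l1)) := by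
    refine List.perm_append_comm.trans ?_
    simp
  have hlen2 : 3 ≤ (q :: (l2 ++ l1)).length := by rw [← hp2.length_eq]; exact hD.1
  obtain ⟨r, s, hrs⟩ : ∃ r s, l2 ++ l1 = r :: s := by
    cases h : l2 ++ l1 with
    | nil => rw [h] at hlen2; simp at hlen2
    | cons r s => exact ⟨r, s, rfl⟩
  rw [nxt l1 l2 s q r hD.2 hrs]
  rw [hrs] at hp2
  have hn2 : (q :: r :: s).Nodup := hp2.nodup_iff.1 hD.2
  refine ⟨?_, fun h => (List.nodup_cons.1 hn2).1 (by rw [← h]; simp)⟩
  rw [PAIRx.cm_rot, hrs]
  exact DEGRx.cm_mem [] s q r

end PhsX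

open PhsX

theorem s_PHS : S_STP → S_PHS := by
  classical
  intro hS n Es
  induction Es with
  | nil =>
    intro X hX hXn _ _ _ _ _ _
    refine ⟨[X], ?_, ?_, rfl, ?_⟩
    · intro p hp
      rw [List.mem_singleton] at hp
      rw [hp]; exact hX
    · intro p hp
      rw [List.mem_singleton] at hp
      rw [hp]; exact hXn
    · have h1 : psum [X] = pm X := by simp [psum]
      have h2 : csum ([] : List (List ℕ)) = 0 := by simp [csum]
      rw [h1, h2]
      funext e
      simp [par]
  | cons E Es ih =>
    intro X hX hXn hC hEn hnd hlen hn hfree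
    have h0 := hlen 0 (by simp)
    simp only [List.getElem_cons_zero, mul_zero, add_zero] at h0
    obtain ⟨A, F, hA, hF, hstep⟩ := hS n X E hX (hC E (by simp)) hXn (hEn E (by simp))
      (hfree E rfl) h0
    set Z : Finset ℕ := X.toFinset ∪ A with hZ
    have hZc : Z.card ≤ X.length + 2 := by
      have h1 : Z.card ≤ X.toFinset.card + A.card := Finset.card_union_le X.toFinset A
      have h2 := List.toFinset_card_le X
      omega
    set B : Finset ℕ := Z.image ((Es.head?.getD []).formPerm).symm with hB
    have hBc : B.card ≤ X.length + 2 := Finset.card_image_le.trans hZc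
    have hlt : (F ∪ B).card < n := by
      have h1 := Finset.card_union_le F B
      simp only [List.length_cons] at hn
      omega
    obtain ⟨q, hqn, hq⟩ : ∃ q, q < n ∧ q ∉ F ∪ B := by
      by_contra hcon
      push Not at hcon
      have h1 : Finset.range n ⊆ F ∪ B := fun q hq => hcon q (Finset.mem_range.1 hq)
      have h2 := Finset.card_le_card h1
      rw [Finset.card_range] at h2
      omega
    rw [Finset.mem_union, not_or] at hq
    obtain ⟨P, X', hP, hX', hPn, hX'n, hX'l, hX'q, hX'm, hpar⟩ := hstep q hqn hq.1
    rw [csum_cons] at hnd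
    have hnd' : (csum Es).Nodup := (Multiset.nodup_add.1 hnd).2.1
    obtain ⟨Ps, hPs, hPsn, hPsl, hPsp⟩ := ih X' hX' hX'n (fun E' h => hC E' (List.mem_cons_of_mem _ h))
      (fun E' h => hEn E' (List.mem_cons_of_mem _ h)) hnd' (by
        intro i hi
        have h1 := hlen (i + 1) (by simpa using hi)
        simp only [List.getElem_cons_succ] at h1
        omega) (by
        simp only [List.length_cons] at hn
        omega) (by
        intro D hD x hx hxD
        rw [hX'q] at hx
        obtain rfl : q = x := Option.some.inj hx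
        have hDm : D ∈ Es := List.mem_of_mem_head? hD
        have hDC := hC D (List.mem_cons_of_mem _ hDm)
        obtain ⟨h1, h2⟩ := succ_mem D hDC q hxD
        refine ⟨D.formPerm q, ?_, h1⟩
        intro hmem
        have hnZ : D.formPerm q ∉ Z := by
          intro hz
          apply hq.2
          rw [hB, Finset.mem_image]
          refine ⟨_, hz, ?_⟩
          rw [hD]
          simp
        rw [hZ, Finset.mem_union, not_or, List.mem_toFinset] at hnZ
        rcases hX'm _ hmem with h | h | h | h
        · exact h2 h
        · exact hnZ.1 h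
        · exact hnZ.2 h
        · have h3 : s(q, D.formPerm q) ∈ cm E := by rw [Sym2.eq_swap]; exact h
          have h4 : s(q, D.formPerm q) ∈ csum Es := by
            unfold csum
            have h5 : cm D ≤ (Es.map cm).sum := List.le_sum_of_mem (List.mem_map_of_mem hDm)
            exact Multiset.mem_of_le h5 h1
          exact (Multiset.disjoint_left.mp (Multiset.nodup_add.1 hnd).2.2) h3 h4)
    refine ⟨P :: Ps, ?_, ?_, ?_, ?_⟩
    · intro p hp
      rcases List.mem_cons.1 hp with rfl | hp
      · exact hP
      · exact hPs p hp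
    · intro p hp
      rcases List.mem_cons.1 hp with rfl | hp
      · exact hPn
      · exact hPsn p hp
    · simp only [List.length_cons]
      omega
    · rw [csum_cons, psum_cons, par_add', par_add']
      linear_combination hpar + hPsp

end Pool.Agent.L7h12.PO
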