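import Pool.Agent.W722.PO.Stm
import Pool.Agent.W722.PO.Stm2

set_option autoImplicit false

/-! Path odd-covers with at most `n/2 + 12` paths: statements of the parts.
Vertices are natural numbers, a path is the list of its vertices, a cycle `a :: t` is the list of its
vertices in order (closed by the edge from the last vertex to `a`).  `Cov B C` says that every edge of
the cycle `C` meets the list `B`. -/

namespace Pool.Agent.L7h12.PO

open Pool.Agent.W722.PO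

/-- the property of a pair of cycles that cannot be turned into two paths by the two simple moves -/
def Ok2 (C D : List ℕ) : Prop := Star C D ∧ (Cov D C ∨ Cov C D)

/-- T4 (new move): if the cycle `C` has an edge `y c` outside `D` and the cycle `D` has an edge `d w`
outside `C`, then `C ⊕ D` is the sum of the two paths
`(C - yc) + cd + dw` (from `y` around `C` to `c`, then `d`, `w`) and `y c d` + `(D - dw)`. -/
def S_T4 : Prop := ∀ C D : List ℕ, IsC C → IsC D → ¬ Cov D C → ¬ Cov C D →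
  ∃ P Q : List ℕ, IsP P ∧ IsP Q ∧ (∀ v ∈ P, v ∈ C ∨ v ∈ D) ∧ (∀ v ∈ Q, v ∈ C ∨ v ∈ D) ∧
    par (cm C) + par (cm D) = par (pm P) + par (pm Q)

/-- PRS: removing greedily the pairs which are sums of two paths (same proof as `PAIRS_holds`). -/
def S_PRS : Prop := ∀ Cs : List (List ℕ), (∀ C ∈ Cs, IsC C) →
  ∃ Ps Cs' : List (List ℕ), (∀ p ∈ Ps, IsP p) ∧ (∀ c ∈ Cs', c ∈ Cs) ∧ csum Cs' ≤ csum Cs ∧
    Ps.length + Cs'.length = Cs.length ∧ par (csum Cs) = par (psum Ps) + par (csum Cs') ∧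
    (∀ p ∈ Ps, ∀ v ∈ p, ∃ c ∈ Cs, v ∈ c) ∧ Cs'.Pairwise Ok2

/-- DEG: edge-disjoint, pairwise `Star` cycles of length at most `L` through a common vertex `v`: at
most `L - 2` of them.  (Proof of `DEGR_holds`, with a sharper count: the pairs `(p, q)` with
`N_p(v) ⊆ V(D_q)` number at least `(t^2 + t)/2`, as the diagonal counts twice, and each `D_q`
contains at most `(L - 1)/2` of the pairs `N_p(v)`; so `t^2 + t ≤ t (L - 1)`.) -/
def S_DEG : Prop := ∀ (L : ℕ) (Cs : List (List ℕ)) (v : ℕ), (∀ C ∈ Cs, IsC C) → (csum Cs).Nodup →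
  Cs.Pairwise Star → (∀ C ∈ Cs, C.length ≤ L) → (∀ C ∈ Cs, v ∈ C) → Cs ≠ [] → Cs.length + 2 ≤ L

/-- CNT: at most `2 L - 5` cycles of length at most `L` in an `Ok2` family.  (Proof: let `C` be a
shortest cycle of the list; for every other `D`, `C.length ≤ 2 |V(C) ∩ V(D)|`, since either every
edge of `C` meets `D` or every edge of `D` meets `C` and `C.length ≤ D.length`, and each vertex is on
two edges of a cycle.  So a vertex of `C` lies on at least half of the others; apply DEG.) -/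
def S_CNT : Prop := ∀ (L : ℕ) (Cs : List (List ℕ)), (∀ C ∈ Cs, IsC C) → (csum Cs).Nodup →
  Cs.Pairwise Ok2 → (∀ C ∈ Cs, C.length ≤ L) → Cs ≠ [] → Cs.length + 5 ≤ 2 * L

/-- SRT: sorting by length; the `i`-th cycle (`i ≥ 0`) has length at least `(i + 6) / 2`. -/
def S_SRT : Prop := ∀ Cs : List (List ℕ), (∀ C ∈ Cs, IsC C) → (csum Cs).Nodup → Cs.Pairwise Ok2 →
  ∃ Es : List (List ℕ), Es.Perm Cs ∧ ∀ (i : ℕ) (h : i < Es.length), i + 6 ≤ 2 * (Es[i]).length

/-- CLS: the residue classes modulo `c` of a list. -/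
def S_CLS : Prop := ∀ (c : ℕ), 0 < c → ∀ (Es : List (List ℕ)), ∃ F : ℕ → List (List ℕ),
  (∀ j < c, ∀ i : ℕ, (F j)[i]? = Es[c * i + j]?) ∧
  (∑ j ∈ Finset.range c, (F j : Multiset (List ℕ))) = (Es : Multiset (List ℕ))

/-- the last vertex of the path `X` is good for the cycle `E` -/
def Free (X E : List ℕ) : Prop := ∀ x, X.getLast? = some x → x ∈ E → ∃ z, z ∉ X ∧ s(x, z) ∈ cm E

/-- STP: absorbing the cycle `E` into the buffer path `X`, with prescribed new end `q`. -/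
def S_STP : Prop := ∀ (n : ℕ) (X E : List ℕ), IsP X → IsC E → (∀ v ∈ X, v < n) → (∀ v ∈ E, v < n) →
  Free X E → 2 * X.length + 1 ≤ E.length →
  ∃ A F : Finset ℕ, A.card ≤ 2 ∧ F.card ≤ 2 * X.length + 2 ∧
    ∀ q < n, q ∉ F → ∃ P X' : List ℕ, IsP P ∧ IsP X' ∧ (∀ v ∈ P, v < n) ∧ (∀ v ∈ X', v < n) ∧
      X'.length ≤ X.length + 3 ∧ X'.getLast? = some q ∧
      (∀ v ∈ X', v = q ∨ v ∈ X ∨ v ∈ A ∨ s(v, q) ∈ cm E) ∧
      par (cm E) + par (pm X) = par (pm P) + par (pm X')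

/-- PHS: one buffer absorbs a whole list of cycles. -/
def S_PHS : Prop := ∀ (n : ℕ) (Es : List (List ℕ)) (X : List ℕ), IsP X → (∀ v ∈ X, v < n) →
  (∀ E ∈ Es, IsC E) → (∀ E ∈ Es, ∀ v ∈ E, v < n) → (csum Es).Nodup →
  (∀ (i : ℕ) (h : i < Es.length), 2 * (X.length + 3 * i) + 1 ≤ (Es[i]).length) →
  3 * (X.length + 3 * Es.length) < n + 5 →
  (∀ E, Es.head? = some E → Free X E) →
  ∃ Ps : List (List ℕ), (∀ p ∈ Ps, IsP p) ∧ (∀ p ∈ Ps, ∀ v ∈ p, v < n) ∧
    Ps.length = Es.length + 1 ∧ par (csum Es) + par (pm X) = par (psum Ps)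

/-- ALL: all cycles of an `Ok2` family. -/
def S_ALL : Prop := ∀ (n : ℕ) (Cs : List (List ℕ)), (∀ C ∈ Cs, IsC C) → (∀ C ∈ Cs, ∀ v ∈ C, v < n) →
  (csum Cs).Nodup → Cs.Pairwise Ok2 → 2 * Cs.length ≤ n →
  ∃ Ps : List (List ℕ), (∀ p ∈ Ps, IsP p) ∧ (∀ p ∈ Ps, ∀ v ∈ p, v < n) ∧
    Ps.length ≤ Cs.length + 12 ∧ par (csum Cs) = par (psum Ps)

/-- MAIN on natural numbers -/
def S_MAIN : Prop := ∀ (E : Finset (Sym2 ℕ)) (n : ℕ), NoLoop E → (∀ v ∈ supp E, v < n) →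
  ∃ Ps : List (List ℕ), (∀ p ∈ Ps, IsP p) ∧ Ps.length ≤ n / 2 + 12 ∧
    (∀ p ∈ Ps, ∀ v ∈ p, v < n) ∧ par E.val = par (psum Ps)

end Pool.Agent.L7h12.PO
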