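import Pool.Agent.L7h12.PO.Stm
import Pool.Agent.W722.PO.ABS2
import Pool.Agent.W722.PO.PAIR
import Pool.Agent.W722.PO.CNTC
import Pool.Agent.W722.PO.DEGR

set_option autoImplicit false

namespace Pool.Agent.L7h12.PO

open Pool.Agent.W722.PO

namespace StpX

theorem par_add' (S T : Multiset (Sym2 ℕ)) : par (S + T) = par S + par T := ABS2x.par_add S T

theorem dbl (S : Multiset (Sym2 ℕ)) : par S + par S = 0 := by
  funext e
  have h3 : ∀ x : ZMod 2, x + x = 0 := by decide
  exact h3 _

theorem pm_cons2 (a b : ℕ) (t : List ℕ) : pm (a :: b :: t) = pm [a, b] + pm (b :: t) := by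
  show s(a, b) ::ₘ pm (b :: t) = (s(a, b) ::ₘ (0 : Multiset (Sym2 ℕ))) + pm (b :: t)
  rw [Multiset.cons_add, zero_add]

theorem pm_swap (a b : ℕ) : pm [a, b] = pm [b, a] := by
  show s(a, b) ::ₘ (0 : Multiset (Sym2 ℕ)) = s(b, a) ::ₘ 0
  rw [Sym2.eq_swap]

theorem cm_cons2 (a b : ℕ) (t : List ℕ) : cm (a :: b :: t) = pm [a, b] + pm (b :: (t ++ [a])) := by
  show pm (a :: b :: (t ++ [a])) = _
  exact pm_cons2 _ _ _

/-- joining two lists -/
theorem pm_join (l : List ℕ) (a b : ℕ) (r : List ℕ) :
    pm ((l ++ [a]) ++ b :: r) = pm (l ++ [a]) + pm [a, b] + pm (b :: r) := by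
  have h1 : (l ++ [a]) ++ b :: r = l ++ a :: (b :: r) := by simp
  rw [h1, ABS2x.pm_append, pm_cons2, add_assoc]

/-- an uncovered edge -/
theorem exists_out (X E : List ℕ) (hE : IsC E) (hX : IsP X) (h : 2 * X.length + 1 ≤ E.length) :
    ∃ u w t, (u :: w :: t).Perm E ∧ cm (u :: w :: t) = cm E ∧ u ∉ X ∧ w ∉ X := by
  classical
  have hc : ¬ Cov X E := by
    intro hc
    have h1 := CNTCx.cycb X E hc
    rw [CNTCx.cnt_eq X E hE.2] at h1
    have h2 : (E.toFinset ∩ X.toFinset).card ≤ X.length :=
      (Finset.card_le_card Finset.inter_subset_right).trans (List.toFinset_card_le X)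
    omega
  unfold Cov at hc
  push Not at hc
  obtain ⟨u, w, huw, hu, hw⟩ := hc
  obtain ⟨x, y, t, hxy, hp, hcm⟩ := ABS2x.edge_rot E u w hE.1 huw
  refine ⟨x, y, t, hp, hcm, ?_, ?_⟩
  · rcases hxy with ⟨rfl, rfl⟩ | ⟨rfl, rfl⟩ <;> assumption
  · rcases hxy with ⟨rfl, rfl⟩ | ⟨rfl, rfl⟩ <;> assumption

/-- the cyclic successor, by `formPerm` -/
theorem nxt (l1 l2 s : List ℕ) (q r : ℕ) (hn : (l1 ++ q :: l2).Nodup) (h : l2 ++ l1 = r :: s) :
    (l1 ++ q :: l2).formPerm q = r := by
  have h1 : (l1 ++ q :: l2).rotate l1.length = q :: (l2 ++ l1) := by
    rw [List.rotate_append_length_eq]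
    rfl
  have h2 := List.formPerm_rotate (l1 ++ q :: l2) hn l1.length
  rw [← h2, h1, h]
  have hn2 : (q :: r :: s).Nodup := by
    rw [← h, ← h1]
    exact List.nodup_rotate.2 hn
  exact List.formPerm_apply_head _ _ _ hn2

theorem nodup3 (X : List ℕ) (hX : X.Nodup) (a b c : ℕ) (ha : a ∉ X) (hb : b ∉ X) (hc : c ∉ X)
    (hab : a ≠ b) (hac : a ≠ c) (hbc : b ≠ c) : (X ++ [a, b, c]).Nodup := by
  rw [List.nodup_append]
  refine ⟨hX, ?_, ?_⟩
  · simp [hab, hac, hbc]
  · intro x hx y hy hxy
    subst hxy
    simp only [List.mem_cons, List.not_mem_nil, or_false] at hy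
    rcases hy with rfl | rfl | rfl
    · exact ha hx
    · exact hb hx
    · exact hc hx

theorem nodup2 (X : List ℕ) (hX : X.Nodup) (a b : ℕ) (ha : a ∉ X) (hb : b ∉ X)
    (hab : a ≠ b) : (X ++ [a, b]).Nodup := by
  rw [List.nodup_append]
  refine ⟨hX, ?_, ?_⟩
  · simp [hab]
  · intro x hx y hy hxy
    subst hxy
    simp only [List.mem_cons, List.not_mem_nil, or_false] at hy
    rcases hy with rfl | rfl
    · exact ha hx
    · exact hb hx

end StpX

open StpX

theorem s_STP : S_STP := by
  classical
  intro n X E hX hE hXn hEn hfree hlen
  obtain ⟨hX0, hXd⟩ := hX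
  obtain ⟨X0, x, rfl⟩ : ∃ X0 x, X = X0 ++ [x] :=
    ⟨X.dropLast, X.getLast hX0, (List.dropLast_append_getLast hX0).symm⟩
  have hlast : (X0 ++ [x]).getLast? = some x := by simp
  have hxX : x ∈ X0 ++ [x] := by simp
  by_cases hxE : x ∈ E
  · -- case 1
    obtain ⟨z, hzX, hz⟩ := hfree x hlast hxE
    obtain ⟨t, ht1, ht2, ht3⟩ := PAIRx.rotTo E hE x z hz hxE
    have hxt : x ∉ z :: t := (List.nodup_cons.1 ht1).1
    have hzt : (z :: t).Nodup := (List.nodup_cons.1 ht1).2
    have hzn : z < n := hEn z ((ht2 z).1 (by simp))
    refine ⟨{z}, (X0 ++ [x]).toFinset ∪ {z} ∪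
      (X0 ++ [x]).toFinset.image ((x :: z :: t).formPerm).symm, by simp, ?_, ?_⟩
    · refine (Finset.card_union_le _ _).trans ?_
      have h1 := Finset.card_union_le (X0 ++ [x]).toFinset {z}
      have h2 := List.toFinset_card_le (X0 ++ [x])
      have h3 := Finset.card_image_le (s := (X0 ++ [x]).toFinset)
        (f := ((x :: z :: t).formPerm).symm)
      simp only [Finset.card_singleton] at h1
      omega
    · intro q hqn hqF
      simp only [Finset.mem_union, not_or, Finset.mem_singleton, List.mem_toFinset] at hqF
      obtain ⟨⟨hqX, hqz⟩, hqI⟩ := hqF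
      have hqx : q ≠ x := fun h => hqX (h ▸ hxX)
      by_cases hqE : q ∈ E
      · have hq1 : q ∈ x :: z :: t := (ht2 q).2 hqE
        have hq2 : q ∈ t := by
          rcases List.mem_cons.1 hq1 with h | h
          · exact absurd h hqx
          · rcases List.mem_cons.1 h with h | h
            · exact absurd h hqz
            · exact h
        obtain ⟨t1, t2, rfl⟩ := List.append_of_mem hq2
        have hsucc : ∀ r s, t2 ++ (x :: z :: t1) = r :: s → r ∉ X0 ++ [x] := by
          intro r s hrs hrX
          apply hqI
          rw [Finset.mem_image]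
          refine ⟨r, List.mem_toFinset.2 hrX, ?_⟩
          rw [Equiv.symm_apply_eq]
          have h1 := nxt (x :: z :: t1) t2 s q r ht1 hrs
          exact h1.symm
        cases t2 with
        | nil => exact absurd hxX (hsucc x (z :: t1) rfl)
        | cons r t3 =>
          have hrX : r ∉ X0 ++ [x] := hsucc r (t3 ++ (x :: z :: t1)) rfl
          have hrE : r ∈ E := (ht2 r).1 (by simp)
          have hzd := hzt
          rw [List.nodup_cons, List.nodup_append, List.nodup_cons, List.nodup_cons] at hzd
          obtain ⟨hz1, ht1d, ⟨hq3, hr3, ht3d⟩, hdis⟩ := hzd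
          have hzr : z ≠ r := fun h => hz1 (by rw [h]; simp)
          have hqr : q ≠ r := fun h => hq3 (by rw [h]; simp)
          have hzq : z ≠ q := fun h => hz1 (by rw [h]; simp)
          refine ⟨(t1.reverse.cons q ++ [z]) ++ r :: (t3 ++ [x]), (X0 ++ [x]) ++ [z, r, q],
            ⟨by simp, ?_⟩, ⟨by simp, ?_⟩, ?_, ?_, by simp, by simp, ?_, ?_⟩
          · -- nodup of P : it is a permutation of the cycle
            have hperm : ((t1.reverse.cons q ++ [z]) ++ r :: (t3 ++ [x])).Perm
                (x :: z :: (t1 ++ q :: r :: t3)) := by
              rw [List.perm_iff_count]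
              intro a
              simp only [List.count_append, List.count_cons, List.count_reverse, List.count_nil]
              ring
            exact hperm.nodup_iff.2 ht1
          · exact nodup3 _ hXd _ _ _ hzX hrX hqX hzr hzq (Ne.symm hqr)
          · intro v hv
            apply hEn v
            apply (ht2 v).1
            simp only [List.mem_append, List.mem_cons, List.mem_reverse, List.not_mem_nil,
              or_false] at hv ⊢
            tauto
          · intro v hv
            rcases List.mem_append.1 hv with h | h
            · exact hXn v h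
            · simp only [List.mem_cons, List.not_mem_nil, or_false] at h
              rcases h with rfl | rfl | rfl
              · exact hzn
              · exact hEn _ hrE
              · exact hqn
          · intro v hv
            rcases List.mem_append.1 hv with h | h
            · exact Or.inr (Or.inl h)
            · simp only [List.mem_cons, List.not_mem_nil, or_false] at h
              rcases h with rfl | rfl | rfl
              · exact Or.inr (Or.inr (Or.inl (by simp)))
              · right; right; right
                rw [← ht3, Sym2.eq_swap]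
                have := DEGRx.cm_mem (x :: z :: t1) t3 q v
                simpa using this
              · exact Or.inl rfl
          · have e1 : cm E = pm [x, z] + (pm ((z :: t1) ++ [q]) + pm [q, r] +
                pm (r :: (t3 ++ [x]))) := by
              rw [← ht3, cm_cons2, ← pm_join (z :: t1) q r (t3 ++ [x])]
              simp
            have e2 : pm ((t1.reverse.cons q ++ [z]) ++ r :: (t3 ++ [x])) =
                pm ((z :: t1) ++ [q]) + pm [z, r] + pm (r :: (t3 ++ [x])) := by
              rw [pm_join, ← PAIRx.pm_reverse ((z :: t1) ++ [q])]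
              congr 3
              simp
            have e3 : pm ((X0 ++ [x]) ++ [z, r, q]) =
                pm (X0 ++ [x]) + pm [x, z] + (pm [z, r] + pm [r, q]) := by
              rw [pm_join, pm_cons2 z r [q]]
            rw [e1, e2, e3, pm_swap r q]
            simp only [par_add']
            have h2 := dbl (pm [z, r])
            linear_combination -h2
      · -- q not on E
        refine ⟨q :: z :: (t ++ [x]), (X0 ++ [x]) ++ [z, q], ⟨by simp, ?_⟩, ⟨by simp, ?_⟩,
          ?_, ?_, by simp, by simp, ?_, ?_⟩
        · have hperm : (z :: (t ++ [x])).Perm (x :: z :: t) := by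
            rw [List.perm_iff_count]
            intro a
            simp only [List.count_append, List.count_cons, List.count_nil]
            ring
          rw [List.nodup_cons]
          refine ⟨?_, hperm.nodup_iff.2 ht1⟩
          intro h
          exact hqE ((ht2 q).1 (hperm.mem_iff.1 h))
        · exact nodup2 _ hXd _ _ hzX hqX (Ne.symm hqz)
        · intro v hv
          rcases List.mem_cons.1 hv with rfl | hv
          · exact hqn
          · apply hEn v
            apply (ht2 v).1
            simp only [List.mem_append, List.mem_cons, List.not_mem_nil, or_false] at hv ⊢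
            tauto
        · intro v hv
          rcases List.mem_append.1 hv with h | h
          · exact hXn v h
          · simp only [List.mem_cons, List.not_mem_nil, or_false] at h
            rcases h with rfl | rfl
            · exact hzn
            · exact hqn
        · intro v hv
          rcases List.mem_append.1 hv with h | h
          · exact Or.inr (Or.inl h)
          · simp only [List.mem_cons, List.not_mem_nil, or_false] at h
            rcases h with rfl | rfl
            · exact Or.inr (Or.inr (Or.inl (by simp)))
            · exact Or.inl rfl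
        · have e1 : cm E = pm [x, z] + pm (z :: (t ++ [x])) := by
            rw [← ht3, cm_cons2]
          have e2 : pm (q :: z :: (t ++ [x])) = pm [q, z] + pm (z :: (t ++ [x])) := pm_cons2 _ _ _
          have e3 : pm ((X0 ++ [x]) ++ [z, q]) = pm (X0 ++ [x]) + pm [x, z] + pm [z, q] :=
            pm_join _ _ _ _
          rw [e1, e2, e3, pm_swap z q]
          simp only [par_add']
          have h2 := dbl (pm [q, z])
          linear_combination -h2
  · -- case 2
    obtain ⟨u, w, t, hperm, hcm, huX, hwX⟩ := exists_out (X0 ++ [x]) E hE ⟨hX0, hXd⟩ hlen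
    have hnd : (u :: w :: t).Nodup := hperm.nodup_iff.2 hE.2
    have huw : u ≠ w := fun h => (List.nodup_cons.1 hnd).1 (by rw [h]; simp)
    have hun : u < n := hEn u (hperm.mem_iff.1 (by simp))
    have hwn : w < n := hEn w (hperm.mem_iff.1 (by simp))
    refine ⟨{u, w}, (X0 ++ [x]).toFinset ∪ {u, w} ∪
      (X0 ++ [x]).toFinset.image (E.formPerm).symm, Finset.card_le_two, ?_, ?_⟩
    · refine (Finset.card_union_le _ _).trans ?_
      have h1 := Finset.card_union_le (X0 ++ [x]).toFinset {u, w}
      have h2 := List.toFinset_card_le (X0 ++ [x])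
      have h3 := Finset.card_image_le (s := (X0 ++ [x]).toFinset) (f := (E.formPerm).symm)
      have h4 : ({u, w} : Finset ℕ).card ≤ 2 := Finset.card_le_two
      omega
    · intro q hqn hqF
      simp only [Finset.mem_union, not_or, Finset.mem_singleton, List.mem_toFinset,
        Finset.mem_insert] at hqF
      obtain ⟨⟨hqX, hqu, hqw⟩, hqI⟩ := hqF
      by_cases hqE : q ∈ E
      · obtain ⟨l1, l2, rfl⟩ := List.append_of_mem hqE
        have hp2 : (l1 ++ q :: l2).Perm (q :: (l2 ++ l1)) := by
          refine List.perm_append_comm.trans ?_
          simp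
        have hlen2 : 3 ≤ (q :: (l2 ++ l1)).length := by rw [← hp2.length_eq]; exact hE.1
        obtain ⟨r, s, hrs⟩ : ∃ r s, l2 ++ l1 = r :: s := by
          cases h : l2 ++ l1 with
          | nil => rw [h] at hlen2; simp at hlen2
          | cons r s => exact ⟨r, s, rfl⟩
        have hrX : r ∉ X0 ++ [x] := by
          intro hrX
          apply hqI
          rw [Finset.mem_image]
          refine ⟨r, List.mem_toFinset.2 hrX, ?_⟩
          rw [Equiv.symm_apply_eq]
          exact (nxt l1 l2 s q r hE.2 hrs).symm
        rw [hrs] at hp2
        have hn2 : (q :: r :: s).Nodup := hp2.nodup_iff.1 hE.2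
        have hqr : q ≠ r := fun h => (List.nodup_cons.1 hn2).1 (by rw [h]; simp)
        have hrot : cm (l1 ++ q :: l2) = cm (q :: r :: s) := by
          rw [PAIRx.cm_rot, hrs]
        have hrE : r ∈ l1 ++ q :: l2 := hp2.mem_iff.2 (by simp)
        refine ⟨x :: r :: (s ++ [q]), (X0 ++ [x]) ++ [r, q], ⟨by simp, ?_⟩, ⟨by simp, ?_⟩,
          ?_, ?_, by simp, by simp, ?_, ?_⟩
        · have hperm3 : (r :: (s ++ [q])).Perm (q :: r :: s) := by
            rw [List.perm_iff_count]
            intro a
            simp only [List.count_append, List.count_cons, List.count_nil]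
            ring
          rw [List.nodup_cons]
          refine ⟨?_, hperm3.nodup_iff.2 hn2⟩
          intro h
          exact hxE (hp2.mem_iff.2 (hperm3.mem_iff.1 h))
        · exact nodup2 _ hXd _ _ hrX hqX (Ne.symm hqr)
        · intro v hv
          rcases List.mem_cons.1 hv with rfl | hv
          · exact hXn _ hxX
          · apply hEn v
            apply hp2.mem_iff.2
            simp only [List.mem_append, List.mem_cons, List.not_mem_nil, or_false] at hv ⊢
            tauto
        · intro v hv
          rcases List.mem_append.1 hv with h | h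
          · exact hXn v h
          · simp only [List.mem_cons, List.not_mem_nil, or_false] at h
            rcases h with rfl | rfl
            · exact hEn _ hrE
            · exact hqn
        · intro v hv
          rcases List.mem_append.1 hv with h | h
          · exact Or.inr (Or.inl h)
          · simp only [List.mem_cons, List.not_mem_nil, or_false] at h
            rcases h with rfl | rfl
            · right; right; right
              rw [hrot, Sym2.eq_swap]
              exact DEGRx.cm_mem [] s q v
            · exact Or.inl rfl
        · have e1 : cm (l1 ++ q :: l2) = pm [q, r] + pm (r :: (s ++ [q])) := by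
            rw [hrot, cm_cons2]
          have e2 : pm (x :: r :: (s ++ [q])) = pm [x, r] + pm (r :: (s ++ [q])) := pm_cons2 _ _ _
          have e3 : pm ((X0 ++ [x]) ++ [r, q]) = pm (X0 ++ [x]) + pm [x, r] + pm [r, q] :=
            pm_join _ _ _ _
          rw [e1, e2, e3, pm_swap r q]
          simp only [par_add']
          have h2 := dbl (pm [x, r])
          linear_combination -h2
      · refine ⟨q :: w :: (t ++ [u, x]), (X0 ++ [x]) ++ [u, w, q], ⟨by simp, ?_⟩,
          ⟨by simp, ?_⟩, ?_, ?_, by simp, by simp, ?_, ?_⟩
        · have hperm3 : (q :: w :: (t ++ [u, x])).Perm (q :: x :: u :: w :: t) := by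
            rw [List.perm_iff_count]
            intro a
            simp only [List.count_append, List.count_cons, List.count_nil]
            ring
          rw [hperm3.nodup_iff, List.nodup_cons, List.nodup_cons]
          refine ⟨?_, ?_, hnd⟩
          · intro h
            rcases List.mem_cons.1 h with h | h
            · exact hqX (h ▸ hxX)
            · exact hqE (hperm.mem_iff.1 h)
          · intro h
            exact hxE (hperm.mem_iff.1 h)
        · exact nodup3 _ hXd _ _ _ huX hwX hqX huw (Ne.symm hqu) (Ne.symm hqw)
        · intro v hv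
          have h1 : v = q ∨ v = x ∨ v ∈ u :: w :: t := by
            simp only [List.mem_append, List.mem_cons, List.not_mem_nil, or_false] at hv ⊢
            tauto
          rcases h1 with rfl | rfl | h
          · exact hqn
          · exact hXn _ hxX
          · exact hEn _ (hperm.mem_iff.1 h)
        · intro v hv
          rcases List.mem_append.1 hv with h | h
          · exact hXn v h
          · simp only [List.mem_cons, List.not_mem_nil, or_false] at h
            rcases h with rfl | rfl | rfl
            · exact hun
            · exact hwn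
            · exact hqn
        · intro v hv
          rcases List.mem_append.1 hv with h | h
          · exact Or.inr (Or.inl h)
          · simp only [List.mem_cons, List.not_mem_nil, or_false] at h
            rcases h with rfl | rfl | rfl
            · exact Or.inr (Or.inr (Or.inl (by simp)))
            · exact Or.inr (Or.inr (Or.inl (by simp)))
            · exact Or.inl rfl
        · have e1 : cm E = pm [u, w] + pm (w :: (t ++ [u])) := by
            rw [← hcm, cm_cons2]
          have e2 : pm (q :: w :: (t ++ [u, x])) =
              pm [q, w] + (pm (w :: (t ++ [u])) + pm [u, x]) := by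
            rw [pm_cons2]
            congr 1
            have h1 : w :: (t ++ [u, x]) = (w :: t) ++ u :: [x] := by simp
            rw [h1, ABS2x.pm_append]
            rfl
          have e3 : pm ((X0 ++ [x]) ++ [u, w, q]) =
              pm (X0 ++ [x]) + pm [x, u] + (pm [u, w] + pm [w, q]) := by
            rw [pm_join, pm_cons2 u w [q]]
          rw [e1, e2, e3, pm_swap w q, pm_swap x u]
          simp only [par_add']
          have h2 := dbl (pm [q, w])
          have h3 := dbl (pm [u, x])
          linear_combination -h2 - h3

end Pool.Agent.L7h12.PO
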